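import Pool.Agent.R679.Inv5

set_option autoImplicit false

/-! MP_32cd73: the proportions of involutions of the finite groups are not dense in `[0, 1/2]`. -/

namespace Pool.Agent.Results.MP_32cd73_al.NotDense

open Finset Pool.Agent.R679.Inv

universe u

/-- the proportion of involutions of a group -/
noncomputable def invProp (G : Type u) [Group G] : ℝ :=
  (Nat.card {x : G // orderOf x = 2} : ℝ) / Nat.card G

/-- the set of the proportions of involutions of the finite groups -/
def II : Set ℝ := {r | ∃ (G : Type) (_ : Group G) (_ : Finite G), r = invProp G}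

/-- the possible values for groups with at least `|G| / m` solutions of `x ^ 2 = 1` -/
def EE (m : ℕ) : Set ℝ :=
  avgs (Set.image2 (· * ·) recips (AA (BB m)) ∪ {0}) (BB m)

theorem QC_EE (m : ℕ) : QC (EE m) := by
  apply QC.avgs
  apply QC.union (QC_recips.mul (QC_AA _))
  have := QC_singleton 0
  rwa [Rat.cast_zero] at this

theorem total {m : ℕ} (G : Type) [Group G] [Finite G]
    (hG : Nat.card G ≤ m * Nat.card {x : G // x ^ 2 = 1}) :
    (Nat.card {x : G // x ^ 2 = 1} : ℝ) / Nat.card G ∈ EE m := by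
  classical
  haveI := Fintype.ofFinite G
  have hI : Nat.card {x : G // x ^ 2 = 1} = (univ.filter (fun x : G => x ^ 2 = 1)).card := by
    rw [Nat.card_eq_fintype_card, Fintype.card_subtype]
  have hG' : Fintype.card G ≤ m * (univ.filter (fun x : G => x ^ 2 = 1)).card := by
    rw [← hI, ← Nat.card_eq_fintype_card]
    exact hG
  obtain ⟨N, Z, hN, hNi, hZc, hZN, hc, hz⟩ := exists_NK G hG'
  haveI : Fintype (G ⧸ N) := Fintype.ofFinite _
  let f : G ⧸ N → ℝ := fun c =>
    (Nat.card {x : G // (x : G ⧸ N) = c ∧ x ^ 2 = 1} : ℝ) / Nat.card N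
  have hf : ∀ c, f c ∈ Set.image2 (· * ·) recips (AA (BB m)) ∪ {0} := by
    intro c
    by_cases hex : ∃ g : G, (g : G ⧸ N) = c ∧ g ^ 2 = 1
    · left
      obtain ⟨g, rfl, hg⟩ := hex
      have h1 := coset_count N Z hN hZN hc hz g (by rw [← pow_two]; exact hg) hZc
      have h2 : Nat.card {n : N // (g * n) * (g * n) = 1} =
          Nat.card {x : G // (x : G ⧸ N) = (g : G ⧸ N) ∧ x ^ 2 = 1} := by
        apply Nat.card_congr
        refine ⟨fun n => ⟨g * (n.1 : G), ?_, ?_⟩, fun x => ⟨⟨g⁻¹ * x.1, ?_⟩, ?_⟩, ?_, ?_⟩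
        · rw [eq_comm, QuotientGroup.eq]
          have : g⁻¹ * (g * (n.1 : G)) = n.1 := by group
          rw [this]
          exact n.1.2
        · rw [pow_two]
          exact n.2
        · exact QuotientGroup.eq.1 x.2.1.symm
        · change g * (g⁻¹ * x.1) * (g * (g⁻¹ * x.1)) = 1
          rw [mul_inv_cancel_left, ← pow_two]
          exact x.2.2
        · intro n
          apply Subtype.ext
          apply Subtype.ext
          change g⁻¹ * (g * (n.1 : G)) = n.1
          group
        · intro x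
          apply Subtype.ext
          change g * (g⁻¹ * x.1) = x.1
          group
      change (Nat.card {x : G // (x : G ⧸ N) = (g : G ⧸ N) ∧ x ^ 2 = 1} : ℝ) / Nat.card N ∈ _
      rw [← h2]
      exact h1
    · right
      have : IsEmpty {x : G // (x : G ⧸ N) = c ∧ x ^ 2 = 1} :=
        ⟨fun x => hex ⟨x.1, x.2⟩⟩
      change (Nat.card {x : G // (x : G ⧸ N) = c ∧ x ^ 2 = 1} : ℝ) / Nat.card N = 0
      rw [Nat.card_of_isEmpty]
      simp
  have hNi' : Fintype.card (G ⧸ N) ≤ BB m := by
    rw [← Nat.card_eq_fintype_card]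
    exact hNi
  have h1 := mem_avgs f hf hNi'
  have hsum : ((univ.filter (fun x : G => x ^ 2 = 1)).card : ℝ) =
      ∑ c : G ⧸ N, (Nat.card {x : G // (x : G ⧸ N) = c ∧ x ^ 2 = 1} : ℝ) := by
    rw [Finset.card_eq_sum_card_fiberwise (f := fun x : G => (x : G ⧸ N)) (t := univ)
      (fun x _ => Finset.mem_coe.2 (Finset.mem_univ _))]
    push_cast
    apply Finset.sum_congr rfl
    intro c _
    rw [Nat.card_eq_fintype_card, Fintype.card_subtype, Finset.filter_filter]
    congr 2
    ext x
    simp [and_comm]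
  have h2 : (∑ c, f c) / (Fintype.card (G ⧸ N) : ℝ) =
      (Nat.card {x : G // x ^ 2 = 1} : ℝ) / Nat.card G := by
    have h3 : (∑ c, f c) = (Nat.card {x : G // x ^ 2 = 1} : ℝ) / Nat.card N := by
      change ∑ c : G ⧸ N, (Nat.card {x : G // (x : G ⧸ N) = c ∧ x ^ 2 = 1} : ℝ) / Nat.card N = _
      rw [← Finset.sum_div, hI, hsum]
    have h4 : (Nat.card N : ℝ) * Fintype.card (G ⧸ N) = Nat.card G := by
      rw [← Nat.card_eq_fintype_card]
      exact_mod_cast N.card_mul_index
    rw [h3, div_div, h4]
  rw [h2] at h1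
  exact h1

theorem card_inv (G : Type) [Group G] [Finite G] :
    Nat.card {x : G // x ^ 2 = 1} = Nat.card {x : G // orderOf x = 2} + 1 := by
  classical
  haveI := Fintype.ofFinite G
  rw [Nat.card_eq_fintype_card, Nat.card_eq_fintype_card, Fintype.card_subtype,
    Fintype.card_subtype]
  have h1 : univ.filter (fun x : G => x ^ 2 = 1) =
      insert 1 (univ.filter (fun x : G => orderOf x = 2)) := by
    ext x
    rw [mem_filter, mem_insert, mem_filter]
    haveI : Fact (Nat.Prime 2) := ⟨Nat.prime_two⟩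
    rw [orderOf_eq_prime_iff]
    by_cases hx : x = 1
    · simp [hx]
    · simp [hx]
  rw [h1, Finset.card_insert_of_notMem]
  rw [mem_filter]
  rintro ⟨_, h⟩
  rw [orderOf_one] at h
  omega

theorem invProp_eq (G : Type) [Group G] [Finite G] :
    invProp G = (Nat.card {x : G // x ^ 2 = 1} : ℝ) / Nat.card G - 1 / Nat.card G := by
  unfold invProp
  rw [card_inv]
  push_cast
  ring

theorem invProp_mem (G : Type u) [Group G] : invProp G ∈ Set.Icc (0 : ℝ) 1 := by
  unfold invProp
  constructor
  · positivity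
  · rcases finite_or_infinite G with h | h
    · apply div_le_one_of_le₀
      · exact_mod_cast Nat.card_le_card_of_injective (fun x : {x : G // orderOf x = 2} => x.1)
          Subtype.val_injective
      · positivity
    · rw [Nat.card_eq_zero_of_infinite (α := G)]
      simp

theorem QC_II : QC II := by
  refine QC.limit (F := {0}) ?_ ?_ ?_
  · refine (Metric.isBounded_Icc (0 : ℝ) 1).subset ?_
    rintro _ ⟨G, _, _, rfl⟩
    exact invProp_mem G
  · have := QC_singleton 0
    rwa [Rat.cast_zero] at this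
  · intro δ hδ
    obtain ⟨m, hm⟩ := exists_nat_gt (1 / δ)
    have hm0 : (0 : ℝ) < m := lt_trans (by positivity) hm
    refine ⟨Set.image2 (· - ·) (EE m) recips, (QC_EE m).sub QC_recips, ?_⟩
    rintro _ ⟨G, _, _, rfl⟩
    by_cases hG : Nat.card G ≤ m * Nat.card {x : G // x ^ 2 = 1}
    · left
      rw [invProp_eq]
      exact ⟨_, total G hG, 1 / (Nat.card G : ℝ), ⟨Nat.card G, Nat.card_pos, rfl⟩, rfl⟩
    · right
      refine ⟨0, rfl, ?_⟩
      push Not at hG
      have h0 : (0 : ℝ) < Nat.card G := by exact_mod_cast Nat.card_pos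
      have h1 : (m : ℝ) * Nat.card {x : G // x ^ 2 = 1} < Nat.card G := by exact_mod_cast hG
      have h2 : 0 ≤ invProp G := (invProp_mem G).1
      rw [sub_zero, abs_of_nonneg h2, invProp_eq]
      have h3 : (Nat.card {x : G // x ^ 2 = 1} : ℝ) / Nat.card G ≤ 1 / m := by
        rw [div_le_div_iff₀ h0 hm0]
        linarith
      have h4 : 1 / (m : ℝ) ≤ δ := by
        rw [div_le_iff₀ hm0]
        rw [div_lt_iff₀ hδ] at hm
        linarith
      have h5 : (0 : ℝ) ≤ 1 / (Nat.card G : ℝ) := by positivity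
      linarith

theorem mem_II (G : Type u) [Group G] [Finite G] : invProp G ∈ II := by
  obtain ⟨G', _, _, ⟨e⟩⟩ := Finite.exists_type_univ_nonempty_mulEquiv.{u, 0} G
  refine ⟨G', inferInstance, inferInstance, ?_⟩
  unfold invProp
  have h1 : Nat.card G = Nat.card G' := Nat.card_congr e.toEquiv
  have h2 : Nat.card {x : G // orderOf x = 2} = Nat.card {x : G' // orderOf x = 2} := by
    apply Nat.card_congr
    refine e.toEquiv.subtypeEquiv ?_
    intro a
    change orderOf a = 2 ↔ orderOf (e a) = 2
    rw [MulEquiv.orderOf_eq]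
  rw [h1, h2]

/-- Every accumulation point of the proportions of involutions of the finite groups is rational;
every irrational number has a neighbourhood without such proportions; in particular they are not
dense in `[0, 1/2]`. -/
theorem result :
    (closure {r : ℝ | ∃ (G : Type) (_ : Group G) (_ : Finite G), r = invProp G} ⊆
      Set.range ((↑) : ℚ → ℝ)) ∧
    (∀ t : ℝ, Irrational t →
      ∃ ε > 0, ∀ (G : Type u) (_ : Group G) (_ : Finite G), ε ≤ |invProp G - t|) ∧
    (∃ t ∈ Set.Icc (0 : ℝ) (1 / 2),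
      ∃ ε > 0, ∀ (G : Type u) (_ : Group G) (_ : Finite G), ε ≤ |invProp G - t|) := by
  have key : ∀ t : ℝ, Irrational t →
      ∃ ε > 0, ∀ (G : Type u) (_ : Group G) (_ : Finite G), ε ≤ |invProp G - t| := by
    intro t ht
    have h1 : t ∉ closure II := fun h => ht (QC_II.2 h)
    rw [Metric.mem_closure_iff] at h1
    push Not at h1
    obtain ⟨ε, hε, h⟩ := h1
    refine ⟨ε, hε, ?_⟩
    intro G _ _
    have h2 := h _ (mem_II G)
    rwa [dist_comm, Real.dist_eq] at h2
  refine ⟨QC_II.2, key, ?_⟩
  have hs : Irrational (√2 / (4 : ℕ)) := irrational_sqrt_two.div_natCast (by norm_num)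
  refine ⟨√2 / (4 : ℕ), ⟨by positivity, ?_⟩, key _ hs⟩
  have h1 : √2 ≤ 2 := by
    rw [Real.sqrt_le_left (by norm_num)]
    norm_num
  push_cast
  linarith

end Pool.Agent.Results.MP_32cd73_al.NotDense
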